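import Pool.Agent.helper213_PG.F1Bridge
import Pool.Agent.helper213_PG.M8Asm
import Pool.Agent.helper213_PG.B5Asm
import Pool.Agent.helper213_PG.G2Bra

set_option autoImplicit false

/-!
# All maximal subgroups of `PG(P(B_n))` and `PG(P(M_n))`

The definitions used in the statement (partition monoid product, involution, Brauer and Motzkin
monoids, projections, the presentation of `PG(P(S))`, Green's relation `H`) are in
`Pool/Agent/helper213_PG/FDefs.lean`.
-/

namespace Pool.Agent.Results.MP_aeed81_al.AllMaximalSubgroups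

open Pool.Agent.H213PG
open Pool.Agent.H213PG.Fin (Proj IsBrauer IsMotzkin MaxSubIso rank Gap motzkinRank)

/-- **Theorem.** The maximal subgroups of `PG(P(B_n))` and of `PG(P(M_n))`, for all `n` and all
projections `p` (of rank `r`).

Brauer monoid: `r = n`, `r = n - 2` or `r ≤ n - 4`, and the maximal subgroup containing `x_p` is
trivial if `r = n`; free of rank `C(n,2) (n-2) + 1 - C(n,2)` if `r = n - 2`; infinite cyclic if
`n = 4`, `r = 0`; and `Z/2 × S_r` if `r ≤ n - 4`, `n ≥ 5`.

Motzkin monoid: it is trivial if there are no two consecutive points outside the blocks meeting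
both rows, and otherwise free of rank `motzkinRank r (n - r)`, that is, of rank `0` if `n - r ≤ 2`,
of rank `r` if `n - r = 3`, and of rank
`r C(r+2, n-r-3) + r C(r+1, n-r-3) - C(r+1, n-r-2)` if `n - r ≥ 4`. -/
theorem result (n : ℕ) :
    (∀ p : Proj (IsBrauer (n := n)),
      (rank p.1 = n ∨ rank p.1 + 2 = n ∨ rank p.1 + 4 ≤ n) ∧
      (rank p.1 = n → MaxSubIso p PUnit) ∧
      (rank p.1 + 2 = n →
        MaxSubIso p (FreeGroup (Fin (n.choose 2 * (n - 2) + 1 - n.choose 2)))) ∧
      (n = 4 → rank p.1 = 0 → MaxSubIso p (Multiplicative ℤ)) ∧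
      (5 ≤ n → rank p.1 + 4 ≤ n →
        MaxSubIso p (Multiplicative (ZMod 2) × Equiv.Perm (Fin (rank p.1))))) ∧
    (∀ p : Proj (IsMotzkin (n := n)),
      (¬ Gap p.1 → MaxSubIso p PUnit) ∧
      (Gap p.1 → MaxSubIso p (FreeGroup (Fin (motzkinRank (rank p.1) (n - rank p.1)))))) := by
  have hun : Nonempty (FreeGroup (Fin 0) ≃* PUnit) := by
    refine ⟨⟨⟨fun _ => PUnit.unit, fun _ => 1, fun x => ?_, fun _ => rfl⟩, fun _ _ => rfl⟩⟩
    exact Subsingleton.elim _ _
  obtain ⟨eu⟩ := hun
  constructor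
  · intro p
    obtain ⟨q, hq, hG⟩ := bridge_B p
    rw [← hq]
    refine ⟨brauer_parity q, ?_, ?_, ?_, ?_⟩
    · intro h
      obtain ⟨e⟩ := brauer_zero q h
      exact hG _ _ ⟨e.trans eu⟩
    · intro h
      exact hG _ _ (brauer_one q h)
    · intro h4 h0
      subst h4
      obtain ⟨e⟩ := brauer_four q h0
      exact hG _ _ ⟨e.trans FreeGroup.mulEquivIntOfUnique⟩
    · intro h5 h
      exact hG _ _ (brauer_main h5 q h)
  · intro p
    obtain ⟨q, hq, hgap, hG⟩ := bridge_M p
    rw [← hq]
    refine ⟨?_, ?_⟩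
    · intro h
      obtain ⟨e⟩ := motzkin_nogap q (fun h' => h (hgap.1 h'))
      exact hG _ _ ⟨e.trans eu⟩
    · intro h
      exact hG _ _ (motzkin_gap q (hgap.2 h))

end Pool.Agent.Results.MP_aeed81_al.AllMaximalSubgroups
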